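import Mathlib

set_option autoImplicit false

open MeasureTheory

namespace Pool.Agent.H67C1a

/-- The autoconvolution `(f * f)(t)` of a real function. -/
noncomputable def autoconv (f : ℝ → ℝ) (t : ℝ) : ℝ := ∫ y, f y * f (t - y)

/-- The inequality that defines the constant: `C` is admissible if for every nonnegative
square-integrable `f` the supremum of `f * f` over `[-1/2, 1/2]` is at least `C` times the square of
the integral of `f` over `[-1/4, 1/4]`. -/
def Admissible (C : ℝ) : Prop :=
  ∀ f : ℝ → ℝ, (∀ x, 0 ≤ f x) → MemLp f 2 volume →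
    C * (∫ x in Set.Icc (-1 / 4 : ℝ) (1 / 4), f x) ^ 2 ≤
      ⨆ t : Set.Icc (-1 / 2 : ℝ) (1 / 2), autoconv f t

/-- The autocorrelation constant `C_{1a}`. -/
noncomputable def C1a : ℝ := sSup {C : ℝ | Admissible C}

end Pool.Agent.H67C1a
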