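import Mathlib

set_option autoImplicit false

namespace Pool.Agent.H67C1a

open Finset Polynomial

/-- The `i`-th digit of `P` in base `B`. -/
def dig (B P i : ℕ) : ℕ := P / B ^ i % B

lemma mod_eq_sum (B P : ℕ) : ∀ n, P % B ^ n = ∑ i ∈ range n, dig B P i * B ^ i := by
  intro n
  induction n with
  | zero => simp [Nat.mod_one]
  | succ n ih =>
    rw [sum_range_succ, ← ih, Nat.mod_pow_succ, dig]
    ring

lemma eq_sum {B P N : ℕ} (h : P < B ^ N) : P = ∑ i ∈ range N, dig B P i * B ^ i := by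
  rw [← mod_eq_sum, Nat.mod_eq_of_lt h]

lemma dig_zero {B P N i : ℕ} (hB : 0 < B) (h : P < B ^ N) (hi : N ≤ i) : dig B P i = 0 := by
  have h1 : B ^ N ≤ B ^ i := Nat.pow_le_pow_right hB hi
  rw [dig, Nat.div_eq_of_lt (lt_of_lt_of_le h h1), Nat.zero_mod]

/-- digits of a sum of the form `∑ c k * B ^ k` -/
lemma dig_sum {B : ℕ} (hB : 0 < B) (c : ℕ → ℕ) (hc : ∀ k, c k < B) (n j : ℕ) (hj : j < n) :
    dig B (∑ k ∈ range n, c k * B ^ k) j = c j := by
  have hlt : ∀ m, ∑ k ∈ range m, c k * B ^ k < B ^ m := by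
    intro m
    induction m with
    | zero => simp
    | succ m ih =>
      rw [sum_range_succ, pow_succ]
      have h1 : c m * B ^ m ≤ (B - 1) * B ^ m := Nat.mul_le_mul_right _ (by have := hc m; omega)
      have h2 : (B - 1) * B ^ m + B ^ m = B ^ m * B := by
        rw [← Nat.succ_mul, Nat.succ_eq_add_one, Nat.sub_add_cancel hB, mul_comm]
      omega
  have hsplit : ∃ Y, ∑ k ∈ range n, c k * B ^ k =
      ∑ k ∈ range j, c k * B ^ k + B ^ j * (c j + B * Y) := by
    obtain ⟨d, rfl⟩ : ∃ d, n = j + 1 + d := ⟨n - (j + 1), by omega⟩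
    clear hj
    induction d with
    | zero =>
      refine ⟨0, ?_⟩
      rw [Nat.add_zero, sum_range_succ]
      ring
    | succ d ih =>
      obtain ⟨Y, hY⟩ := ih
      refine ⟨Y + c (j + 1 + d) * B ^ d, ?_⟩
      rw [← Nat.add_assoc, sum_range_succ, hY]
      ring
  obtain ⟨Y, hY⟩ := hsplit
  rw [dig, hY, Nat.add_mul_div_left _ _ (pow_pos hB j), Nat.div_eq_of_lt (hlt j), Nat.zero_add,
    Nat.add_mul_mod_self_left, Nat.mod_eq_of_lt (hc j)]

/-- the convolution coefficients -/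
def cc (a : ℕ → ℕ) (k : ℕ) : ℕ := ∑ p ∈ antidiagonal k, a p.1 * a p.2

lemma sq_eq_sum {B N : ℕ} (a : ℕ → ℕ) (ha : ∀ i, N ≤ i → a i = 0) :
    (∑ i ∈ range N, a i * B ^ i) ^ 2 = ∑ k ∈ range (2 * N + 1), cc a k * B ^ k := by
  set p : ℕ[X] := ∑ i ∈ range N, monomial i (a i) with hp
  have hcoeff : ∀ i, p.coeff i = a i := by
    intro i
    rw [hp, finsetSum_coeff]
    simp only [coeff_monomial]
    rw [sum_ite_eq' (range N) i]
    by_cases h : i < N
    · rw [if_pos (mem_range.mpr h)]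
    · rw [if_neg (fun h' => h (mem_range.mp h')), ha i (by omega)]
  have hdeg : p.natDegree ≤ N := by
    rw [natDegree_le_iff_coeff_eq_zero]
    intro i hi
    rw [hcoeff, ha i (by omega)]
  have hev : p.eval B = ∑ i ∈ range N, a i * B ^ i := by
    rw [hp, eval_finsetSum]
    simp only [eval_monomial]
  have hev2 : (p * p).eval B = ∑ k ∈ range (2 * N + 1), (p * p).coeff k * B ^ k := by
    apply eval_eq_sum_range'
    have := natDegree_mul_le (p := p) (q := p)
    omega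
  rw [← hev, sq, ← eval_mul, hev2]
  apply sum_congr rfl
  intro k _
  rw [coeff_mul, cc]
  simp only [hcoeff]

lemma cc_le {N : ℕ} (a : ℕ → ℕ) (ha : ∀ i, N ≤ i → a i = 0) (M : ℕ) (hM : ∀ i, a i ≤ M) (k : ℕ) :
    cc a k ≤ (∑ i ∈ range N, a i) * M := by
  rw [cc, Finset.Nat.sum_antidiagonal_eq_sum_range_succ (fun i j => a i * a j)]
  calc ∑ i ∈ range (k + 1), a i * a (k - i) ≤ ∑ i ∈ range (k + 1), a i * M :=
        sum_le_sum (fun i _ => Nat.mul_le_mul_left _ (hM _))
    _ = (∑ i ∈ range (k + 1), a i) * M := by rw [sum_mul]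
    _ ≤ (∑ i ∈ range N, a i) * M := by
        apply Nat.mul_le_mul_right
        rcases le_total (k + 1) N with h | h
        · exact sum_le_sum_of_subset (range_mono h)
        · rw [← sum_subset (range_mono h)]
          intro i _ hi
          exact ha i (by simpa using hi)

/-- the digits of `P ^ 2` are the convolution coefficients of the digits of `P` -/
lemma dig_sq {B P N M : ℕ} (hB : 0 < B) (h : P < B ^ N) (hM : ∀ i, dig B P i ≤ M)
    (hS : (∑ i ∈ range N, dig B P i) * M < B) (k : ℕ) : dig B (P ^ 2) k = cc (dig B P) k := by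
  have ha : ∀ i, N ≤ i → dig B P i = 0 := fun i hi => dig_zero hB h hi
  have h1 : P ^ 2 = ∑ k ∈ range (2 * N + 1), cc (dig B P) k * B ^ k := by
    conv_lhs => rw [eq_sum h]
    exact sq_eq_sum _ ha
  have hlt : ∀ k, cc (dig B P) k < B := fun k => lt_of_le_of_lt (cc_le _ ha M hM k) hS
  by_cases hk : k < 2 * N + 1
  · rw [h1, dig_sum hB _ hlt _ _ hk]
  · have h2 : P ^ 2 < B ^ (2 * N + 1) := by
      calc P ^ 2 < (B ^ N) ^ 2 := Nat.pow_lt_pow_left h (by norm_num)
        _ = B ^ (2 * N) := by rw [← pow_mul, mul_comm]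
        _ ≤ B ^ (2 * N + 1) := Nat.pow_le_pow_right hB (by omega)
    rw [dig_zero hB h2 (by omega), cc]
    symm
    apply sum_eq_zero
    rintro ⟨i, j⟩ hij
    rw [Finset.HasAntidiagonal.mem_antidiagonal] at hij
    simp only at hij ⊢
    rcases Nat.lt_or_ge i N with hi | hi
    · rw [ha j (by omega), mul_zero]
    · rw [ha i hi, zero_mul]

/-- the sum of the digits is the remainder modulo `B - 1` -/
lemma sum_dig {B P N : ℕ} (hB : 1 < B) (h : P < B ^ N) (hS : ∑ i ∈ range N, dig B P i < B - 1) :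
    ∑ i ∈ range N, dig B P i = P % (B - 1) := by
  have h1 : P ≡ ∑ i ∈ range N, dig B P i [MOD (B - 1)] := by
    conv_lhs => rw [eq_sum h]
    have hB1 : B ≡ 1 [MOD (B - 1)] := by
      have := (Nat.modEq_sub (Nat.le_of_lt hB)).symm
      exact this.symm
    have : ∀ i, dig B P i * B ^ i ≡ dig B P i [MOD (B - 1)] := by
      intro i
      calc dig B P i * B ^ i ≡ dig B P i * 1 ^ i [MOD (B - 1)] := (hB1.pow i).mul_left _
        _ = dig B P i := by rw [one_pow, mul_one]
    exact Nat.ModEq.sum (fun i _ => this i)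
  rw [← Nat.mod_eq_of_lt hS]
  exact h1.symm

/-- all digits of `x` (in base `2 ^ w`) below position `2 ^ m` are at most `C` -/
def chk (w C : ℕ) : ℕ → ℕ → Bool
  | 0, x => Nat.ble x C
  | (m + 1), x => chk w C m (x % 2 ^ (w * 2 ^ m)) && chk w C m (x / 2 ^ (w * 2 ^ m))

lemma chk_spec (w C : ℕ) : ∀ (m x : ℕ), chk w C m x = true → C < 2 ^ w →
    ∀ i, dig (2 ^ w) x i ≤ C := by
  intro m
  induction m with
  | zero =>
    intro x hx hC i
    rw [chk] at hx
    have hx' : x ≤ C := Nat.le_of_ble_eq_true hx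
    rw [dig]
    exact le_trans (Nat.mod_le _ _) (le_trans (Nat.div_le_self _ _) hx')
  | succ m ih =>
    intro x hx hC i
    rw [chk, Bool.and_eq_true] at hx
    obtain ⟨h1, h2⟩ := hx
    have e : 2 ^ (w * 2 ^ m) = (2 ^ w) ^ (2 ^ m) := by rw [pow_mul]
    rw [e] at h1 h2
    rcases Nat.lt_or_ge i (2 ^ m) with hi | hi
    · have h3 := ih _ h1 hC i
      have h4 : dig (2 ^ w) (x % (2 ^ w) ^ (2 ^ m)) i = dig (2 ^ w) x i := by
        rw [dig, dig]
        obtain ⟨d, hd⟩ : ∃ d, 2 ^ m = i + 1 + d := ⟨2 ^ m - (i + 1), by omega⟩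
        rw [hd, pow_add, Nat.mod_mul]
        rw [pow_succ, Nat.mod_mul]
        have hp : 0 < (2 ^ w) ^ i := by positivity
        have : x % (2 ^ w) ^ i + (2 ^ w) ^ i * (x / (2 ^ w) ^ i % 2 ^ w) +
            (2 ^ w) ^ i * 2 ^ w * (x / ((2 ^ w) ^ i * 2 ^ w) % (2 ^ w) ^ d) =
            x % (2 ^ w) ^ i + (2 ^ w) ^ i * (x / (2 ^ w) ^ i % 2 ^ w +
              2 ^ w * (x / ((2 ^ w) ^ i * 2 ^ w) % (2 ^ w) ^ d)) := by ring
        rw [this, Nat.add_mul_div_left _ _ hp, Nat.div_eq_of_lt (Nat.mod_lt _ hp), Nat.zero_add,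
          Nat.add_mul_mod_self_left, Nat.mod_mod]
      rw [← h4]
      exact h3
    · have h3 := ih _ h2 hC (i - 2 ^ m)
      have h4 : dig (2 ^ w) (x / (2 ^ w) ^ (2 ^ m)) (i - 2 ^ m) = dig (2 ^ w) x i := by
        rw [dig, dig, Nat.div_div_eq_div_mul, ← pow_add]
        congr 3
        omega
      rw [← h4]
      exact h3

end Pool.Agent.H67C1a
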