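import Pool.Agent.H67C1a.Defs
import Pool.Agent.H67C1a.Digits

set_option autoImplicit false

open MeasureTheory Set

namespace Pool.Agent.H67C1a

/-- extension of a sequence of heights to the integers by zero -/
noncomputable def ext (a : ℕ → ℕ) (n : ℤ) : ℝ := if 0 ≤ n then (a n.toNat : ℝ) else 0

/-- the step function with heights `a i` on the `N` cells of `[-1/4, 1/4)` -/
noncomputable def step (N : ℕ) (a : ℕ → ℕ) (x : ℝ) : ℝ := ext a ⌊(x + 1 / 4) * (2 * N)⌋

lemma ext_nonneg (a : ℕ → ℕ) (n : ℤ) : 0 ≤ ext a n := by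
  unfold ext; split_ifs <;> positivity

lemma ext_zero {a : ℕ → ℕ} {N : ℕ} (ha : ∀ i, N ≤ i → a i = 0) {n : ℤ} (hn : n < 0 ∨ (N : ℤ) ≤ n) :
    ext a n = 0 := by
  unfold ext
  split_ifs with h
  · rcases hn with h' | h'
    · omega
    · rw [ha n.toNat (by omega), Nat.cast_zero]
  · rfl

lemma ext_le {a : ℕ → ℕ} {M : ℕ} (hM : ∀ i, a i ≤ M) (n : ℤ) : ext a n ≤ M := by
  unfold ext
  split_ifs
  · exact_mod_cast hM _
  · positivity

lemma ext_nat (a : ℕ → ℕ) (i : ℕ) : ext a (i : ℤ) = a i := by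
  unfold ext; simp

lemma measurable_ext_floor (a : ℕ → ℕ) : Measurable (fun u : ℝ => ext a ⌊u⌋) :=
  (measurable_from_top (f := ext a)).comp Int.measurable_floor

/-- sum of `a i * a (m - i)` over the integers `m` -/
lemma sum_ext_le {a : ℕ → ℕ} {N C : ℕ} (ha : ∀ i, N ≤ i → a i = 0) (hC : ∀ k, cc a k ≤ C) (m : ℤ) :
    ∑ i ∈ Finset.range N, (a i : ℝ) * ext a (m - i) ≤ C := by
  rcases lt_or_ge m 0 with hm | hm
  · have : ∑ i ∈ Finset.range N, (a i : ℝ) * ext a (m - i) = 0 := by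
      apply Finset.sum_eq_zero
      intro i _
      rw [ext_zero ha (Or.inl (by omega)), mul_zero]
    rw [this]; positivity
  · obtain ⟨k, rfl⟩ := Int.eq_ofNat_of_zero_le hm
    have h1 : ∑ i ∈ Finset.range N, (a i : ℝ) * ext a ((k : ℤ) - i) ≤ ((cc a k : ℕ) : ℝ) := by
      rw [cc, Finset.Nat.sum_antidiagonal_eq_sum_range_succ (fun i j => a i * a j)]
      push_cast
      have h2 : ∀ i, (a i : ℝ) * ext a ((k : ℤ) - i) =
          if i < k + 1 then (a i : ℝ) * (a (k - i) : ℝ) else 0 := by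
        intro i
        split_ifs with h
        · have : ((k : ℤ) - i) = ((k - i : ℕ) : ℤ) := by omega
          rw [this, ext_nat]
        · rw [ext_zero ha (Or.inl (by omega)), mul_zero]
      calc ∑ i ∈ Finset.range N, (a i : ℝ) * ext a ((k : ℤ) - i)
          = ∑ i ∈ Finset.range N, (if i < k + 1 then (a i : ℝ) * (a (k - i) : ℝ) else 0) :=
            Finset.sum_congr rfl (fun i _ => h2 i)
        _ = ∑ i ∈ (Finset.range N).filter (fun i => i < k + 1), (a i : ℝ) * (a (k - i) : ℝ) := by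
            rw [Finset.sum_filter]
        _ ≤ ∑ i ∈ Finset.range (k + 1), (a i : ℝ) * (a (k - i) : ℝ) := by
            apply Finset.sum_le_sum_of_subset_of_nonneg
            · intro i hi
              rw [Finset.mem_filter] at hi
              exact Finset.mem_range.mpr hi.2
            · intro i _ _
              positivity
    exact h1.trans (by exact_mod_cast hC k)

lemma integrable_aux (a : ℕ → ℕ) {M : ℕ} (hM : ∀ i, a i ≤ M) (τ : ℝ) (c d : ℝ) (i : ℤ) :
    IntervalIntegrable (fun u : ℝ => ext a (⌊τ - u⌋ - i)) volume c d := by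
  rw [intervalIntegrable_iff]
  apply Measure.integrableOn_of_bounded (M := (M : ℝ))
  · exact measure_Ioc_lt_top.ne
  · apply Measurable.aestronglyMeasurable
    have : Measurable (fun n : ℤ => ext a (n - i)) := measurable_from_top
    exact this.comp (Int.measurable_floor.comp (measurable_const.sub measurable_id))
  · apply Filter.Eventually.of_forall
    intro u
    rw [Real.norm_eq_abs, abs_of_nonneg (ext_nonneg _ _)]
    exact ext_le hM _

lemma integrable_floor (a : ℕ → ℕ) {M : ℕ} (hM : ∀ i, a i ≤ M) (τ : ℝ) (c d : ℝ) :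
    IntervalIntegrable (fun u : ℝ => ext a ⌊u⌋ * ext a ⌊τ - u⌋) volume c d := by
  rw [intervalIntegrable_iff]
  apply Measure.integrableOn_of_bounded (M := (M : ℝ) * M)
  · exact measure_Ioc_lt_top.ne
  · apply Measurable.aestronglyMeasurable
    exact (measurable_ext_floor a).mul
      ((measurable_ext_floor a).comp (measurable_const.sub measurable_id))
  · apply Filter.Eventually.of_forall
    intro u
    rw [Real.norm_eq_abs, abs_of_nonneg (mul_nonneg (ext_nonneg _ _) (ext_nonneg _ _))]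
    exact mul_le_mul (ext_le hM _) (ext_le hM _) (ext_nonneg _ _) (by positivity)

/-- the integral over the real line of the scaled product -/
lemma scaled_le {a : ℕ → ℕ} {N C M : ℕ} (ha : ∀ i, N ≤ i → a i = 0) (hM : ∀ i, a i ≤ M)
    (hC : ∀ k, cc a k ≤ C) (τ : ℝ) : ∫ u : ℝ, ext a ⌊u⌋ * ext a ⌊τ - u⌋ ≤ C := by
  have h0 : ∫ u : ℝ, ext a ⌊u⌋ * ext a ⌊τ - u⌋ =
      ∫ u in (0 : ℝ)..(N : ℝ), ext a ⌊u⌋ * ext a ⌊τ - u⌋ := by
    rw [intervalIntegral.integral_of_le (by positivity), ← integral_Ico_eq_integral_Ioc,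
      setIntegral_eq_integral_of_forall_compl_eq_zero]
    intro u hu
    have : ext a ⌊u⌋ = 0 := by
      apply ext_zero ha
      by_contra hcon
      push Not at hcon
      apply hu
      have h1 : (0 : ℝ) ≤ u := by
        have := Int.floor_le u
        have h2 : (0 : ℝ) ≤ (⌊u⌋ : ℝ) := by exact_mod_cast hcon.1
        linarith
      have h2 : u < N := by
        have h3 : ⌊u⌋ < (N : ℤ) := hcon.2
        rw [Int.floor_lt] at h3
        exact_mod_cast h3
      exact ⟨h1, h2⟩
    rw [this, zero_mul]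
  rw [h0]
  have h1 : ∫ u in (0 : ℝ)..(N : ℝ), ext a ⌊u⌋ * ext a ⌊τ - u⌋ =
      ∑ i ∈ Finset.range N, ∫ u in (i : ℝ)..((i + 1 : ℕ) : ℝ), ext a ⌊u⌋ * ext a ⌊τ - u⌋ := by
    have := intervalIntegral.sum_integral_adjacent_intervals (μ := volume)
      (f := fun u : ℝ => ext a ⌊u⌋ * ext a ⌊τ - u⌋) (a := fun i : ℕ => (i : ℝ)) (n := N)
      (fun k _ => integrable_floor a hM τ _ _)
    rw [this]
    simp
  rw [h1]
  have h2 : ∀ i ∈ Finset.range N, ∫ u in (i : ℝ)..((i + 1 : ℕ) : ℝ), ext a ⌊u⌋ * ext a ⌊τ - u⌋ =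
      ∫ r in (0 : ℝ)..1, (a i : ℝ) * ext a (⌊τ - r⌋ - i) := by
    intro i _
    have h3 : ∫ u in (i : ℝ)..((i + 1 : ℕ) : ℝ), ext a ⌊u⌋ * ext a ⌊τ - u⌋ =
        ∫ r in (0 : ℝ)..1, ext a ⌊r + (i : ℝ)⌋ * ext a ⌊τ - (r + (i : ℝ))⌋ := by
      rw [intervalIntegral.integral_comp_add_right
        (fun u : ℝ => ext a ⌊u⌋ * ext a ⌊τ - u⌋) (i : ℝ)]
      congr 1
      · ring
      · push_cast; ring
    rw [h3]
    rw [intervalIntegral.integral_of_le (by norm_num), intervalIntegral.integral_of_le (by norm_num),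
      ← integral_Ico_eq_integral_Ioc, ← integral_Ico_eq_integral_Ioc]
    apply setIntegral_congr_fun measurableSet_Ico
    intro r hr
    simp only
    have e1 : ⌊r + (i : ℝ)⌋ = (i : ℤ) := by
      rw [Int.floor_add_natCast]
      have : ⌊r⌋ = 0 := Int.floor_eq_zero_iff.mpr hr
      rw [this, zero_add]
    have e2 : ⌊τ - (r + (i : ℝ))⌋ = ⌊τ - r⌋ - (i : ℤ) := by
      rw [← sub_sub, Int.floor_sub_natCast]
    rw [e1, e2, ext_nat]
  rw [Finset.sum_congr rfl h2]
  have e3 : ∑ i ∈ Finset.range N, ∫ r in (0 : ℝ)..1, (a i : ℝ) * ext a (⌊τ - r⌋ - i) =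
      ∫ r in (0 : ℝ)..1, ∑ i ∈ Finset.range N, (a i : ℝ) * ext a (⌊τ - r⌋ - i) := by
    rw [intervalIntegral.integral_finsetSum]
    intro i _
    exact (integrable_aux a hM τ 0 1 (i : ℤ)).const_mul (a i : ℝ)
  rw [e3]
  calc ∫ r in (0 : ℝ)..1, ∑ i ∈ Finset.range N, (a i : ℝ) * ext a (⌊τ - r⌋ - i)
      ≤ ∫ _ in (0 : ℝ)..1, (C : ℝ) := by
        apply intervalIntegral.integral_mono_on (by norm_num)
        · have := IntervalIntegrable.sum (μ := volume) (a := (0 : ℝ)) (b := 1)
            (f := fun i : ℕ => fun r : ℝ => (a i : ℝ) * ext a (⌊τ - r⌋ - (i : ℤ)))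
            (Finset.range N) (fun i _ => (integrable_aux a hM τ 0 1 (i : ℤ)).const_mul (a i : ℝ))
          have e : (∑ i ∈ Finset.range N, fun r : ℝ => (a i : ℝ) * ext a (⌊τ - r⌋ - (i : ℤ))) =
              fun r : ℝ => ∑ i ∈ Finset.range N, (a i : ℝ) * ext a (⌊τ - r⌋ - (i : ℤ)) := by
            ext r
            rw [Finset.sum_apply]
          rw [e] at this
          exact this
        · exact intervalIntegrable_const
        · intro r _
          exact sum_ext_le ha hC _
    _ = C := by simp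

variable {a : ℕ → ℕ} {N C M : ℕ}

lemma autoconv_le (hN : 0 < N) (ha : ∀ i, N ≤ i → a i = 0) (hM : ∀ i, a i ≤ M)
    (hC : ∀ k, cc a k ≤ C) (t : ℝ) : autoconv (step N a) t ≤ C / (2 * N) := by
  have hN' : (0 : ℝ) < 2 * N := by positivity
  have h := scaled_le ha hM hC ((t + 1 / 2) * (2 * N))
  have h2 : autoconv (step N a) t =
      ∫ y : ℝ, (fun u : ℝ => ext a ⌊u⌋ * ext a ⌊(t + 1 / 2) * (2 * N) - u⌋)
        ((y + 1 / 4) * (2 * N)) := by
    unfold autoconv step
    apply integral_congr_ae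
    apply Filter.Eventually.of_forall
    intro y
    simp only
    congr 3
    ring
  rw [h2]
  have h3 : ∫ y : ℝ, (fun u : ℝ => ext a ⌊u⌋ * ext a ⌊(t + 1 / 2) * (2 * N) - u⌋)
        ((y + 1 / 4) * (2 * N)) = (2 * N : ℝ)⁻¹ *
      ∫ u : ℝ, ext a ⌊u⌋ * ext a ⌊(t + 1 / 2) * (2 * N) - u⌋ := by
    rw [integral_add_right_eq_self (fun y : ℝ => (fun u : ℝ => ext a ⌊u⌋ *
      ext a ⌊(t + 1 / 2) * (2 * N) - u⌋) (y * (2 * N))) (1 / 4 : ℝ)]
    rw [Measure.integral_comp_mul_right (fun u : ℝ => ext a ⌊u⌋ *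
      ext a ⌊(t + 1 / 2) * (2 * N) - u⌋) (2 * N : ℝ)]
    rw [abs_of_pos (by positivity), smul_eq_mul]
  rw [h3, div_eq_inv_mul (C : ℝ)]
  exact mul_le_mul_of_nonneg_left h (by positivity)

lemma integral_step (hN : 0 < N) (ha : ∀ i, N ≤ i → a i = 0) (hM : ∀ i, a i ≤ M) :
    ∫ x in Icc (-1 / 4 : ℝ) (1 / 4), step N a x =
      (∑ i ∈ Finset.range N, (a i : ℝ)) / (2 * N) := by
  have hN' : (0 : ℝ) < 2 * N := by positivity
  have hN0 : (N : ℝ) ≠ 0 := by positivity
  have hint : ∀ c d : ℝ, IntervalIntegrable (fun u : ℝ => ext a ⌊u⌋) volume c d := by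
    intro c d
    rw [intervalIntegrable_iff]
    apply Measure.integrableOn_of_bounded (M := (M : ℝ))
    · exact measure_Ioc_lt_top.ne
    · exact (measurable_ext_floor a).aestronglyMeasurable
    · apply Filter.Eventually.of_forall
      intro u
      rw [Real.norm_eq_abs, abs_of_nonneg (ext_nonneg _ _)]
      exact ext_le hM _
  rw [integral_Icc_eq_integral_Ioc, ← intervalIntegral.integral_of_le (by norm_num)]
  have h1 : ∫ x in (-1 / 4 : ℝ)..(1 / 4), step N a x =
      (2 * N : ℝ)⁻¹ * ∫ u in (0 : ℝ)..(N : ℝ), ext a ⌊u⌋ := by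
    have h2 : ∀ x : ℝ, step N a x = (fun u : ℝ => ext a ⌊u⌋) ((2 * N) * x + N / 2) := by
      intro x
      unfold step
      simp only
      congr 2
      ring
    rw [intervalIntegral.integral_congr (fun x _ => h2 x)]
    rw [intervalIntegral.integral_comp_mul_add (fun u : ℝ => ext a ⌊u⌋) hN'.ne' (N / 2 : ℝ)]
    rw [smul_eq_mul]
    congr 2
    · ring
    · ring
  rw [h1]
  have h3 : ∫ u in (0 : ℝ)..(N : ℝ), ext a ⌊u⌋ =
      ∑ i ∈ Finset.range N, ∫ u in (i : ℝ)..((i + 1 : ℕ) : ℝ), ext a ⌊u⌋ := by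
    have := intervalIntegral.sum_integral_adjacent_intervals (μ := volume)
      (f := fun u : ℝ => ext a ⌊u⌋) (a := fun i : ℕ => (i : ℝ)) (n := N)
      (fun k _ => hint _ _)
    rw [this]
    simp
  have h4 : ∀ i ∈ Finset.range N, ∫ u in (i : ℝ)..((i + 1 : ℕ) : ℝ), ext a ⌊u⌋ = (a i : ℝ) := by
    intro i _
    have h5 : ∫ u in (i : ℝ)..((i + 1 : ℕ) : ℝ), ext a ⌊u⌋ =
        ∫ u in (i : ℝ)..((i + 1 : ℕ) : ℝ), (a i : ℝ) := by
      rw [intervalIntegral.integral_of_le (by push_cast; linarith),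
        intervalIntegral.integral_of_le (by push_cast; linarith),
        ← integral_Ico_eq_integral_Ioc, ← integral_Ico_eq_integral_Ioc]
      apply setIntegral_congr_fun measurableSet_Ico
      intro u hu
      simp only
      have : ⌊u⌋ = (i : ℤ) := by
        rw [Int.floor_eq_iff]
        constructor
        · exact_mod_cast hu.1
        · have := hu.2
          push_cast at this ⊢
          exact this
      rw [this, ext_nat]
    rw [h5, intervalIntegral.integral_const]
    push_cast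
    simp
  rw [h3, Finset.sum_congr rfl h4]
  field_simp

lemma memLp_step (hN : 0 < N) (ha : ∀ i, N ≤ i → a i = 0) (hM : ∀ i, a i ≤ M) :
    MemLp (step N a) 2 volume := by
  have hN' : (0 : ℝ) < 2 * N := by positivity
  have hmeas : Measurable (step N a) := by
    have : Measurable (fun x : ℝ => (x + 1 / 4) * (2 * N : ℝ)) := by fun_prop
    exact (measurable_ext_floor a).comp this
  have hind : step N a = (Ico (-1 / 4 : ℝ) (1 / 4)).indicator (step N a) := by
    ext x
    by_cases hx : x ∈ Ico (-1 / 4 : ℝ) (1 / 4)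
    · rw [indicator_of_mem hx]
    · rw [indicator_of_notMem hx]
      unfold step
      apply ext_zero ha
      by_contra hcon
      push Not at hcon
      apply hx
      have h1 : (0 : ℝ) ≤ (x + 1 / 4) * (2 * N) := by
        have := Int.floor_le ((x + 1 / 4) * (2 * N : ℝ))
        have h2 : (0 : ℝ) ≤ (⌊(x + 1 / 4) * (2 * N : ℝ)⌋ : ℝ) := by exact_mod_cast hcon.1
        linarith
      have h2 : (x + 1 / 4) * (2 * N) < N := by
        have h3 := hcon.2
        rw [Int.floor_lt] at h3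
        exact_mod_cast h3
      constructor
      · by_contra h
        push Not at h
        have : (x + 1 / 4) * (2 * N) < 0 := mul_neg_of_neg_of_pos (by linarith) hN'
        linarith
      · by_contra h
        push Not at h
        have : (1 / 2) * (2 * (N : ℝ)) ≤ (x + 1 / 4) * (2 * N) :=
          mul_le_mul_of_nonneg_right (by linarith) hN'.le
        linarith
  rw [hind, memLp_indicator_iff_restrict measurableSet_Ico]
  apply MemLp.of_bound hmeas.aestronglyMeasurable (M : ℝ)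
  apply Filter.Eventually.of_forall
  intro x
  unfold step
  rw [Real.norm_eq_abs, abs_of_nonneg (ext_nonneg _ _)]
  exact ext_le hM _

/-- The bound given by a step function with integer heights. -/
theorem admissible_le (hN : 0 < N) (ha : ∀ i, N ≤ i → a i = 0) (hM : ∀ i, a i ≤ M)
    (hC : ∀ k, cc a k ≤ C) {c : ℝ} (hc : Admissible c) :
    c * (∑ i ∈ Finset.range N, (a i : ℝ)) ^ 2 ≤ 2 * N * C := by
  have hN' : (0 : ℝ) < 2 * N := by positivity
  have h := hc (step N a) (fun x => ext_nonneg _ _) (memLp_step hN ha hM)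
  rw [integral_step hN ha hM] at h
  have h2 : ⨆ t : Icc (-1 / 2 : ℝ) (1 / 2), autoconv (step N a) t ≤ C / (2 * N) := by
    have : Nonempty (Icc (-1 / 2 : ℝ) (1 / 2)) := ⟨⟨0, by norm_num, by norm_num⟩⟩
    exact ciSup_le (fun t => autoconv_le hN ha hM hC t)
  have h3 := h.trans h2
  rw [div_pow, ← mul_div_assoc, div_le_div_iff₀ (by positivity) hN'] at h3
  have h4 : c * (∑ i ∈ Finset.range N, (a i : ℝ)) ^ 2 * (2 * N) ≤ (2 * N * C) * (2 * N) := by
    nlinarith [h3]
  exact le_of_mul_le_mul_right h4 hN'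

/-- Zero is admissible. -/
theorem admissible_zero : Admissible 0 := by
  intro f hf _
  rw [zero_mul]
  apply Real.iSup_nonneg
  intro t
  exact integral_nonneg (fun y => mul_nonneg (hf _) (hf _))

/-- The bound in terms of the digits of one natural number `P` in base `2 ^ w`. -/
theorem bound_of_digits {w P N M C S : ℕ} (hw : 1 < 2 ^ w) (hN : 0 < N) (hP : P < (2 ^ w) ^ N)
    (mP mC : ℕ) (h1 : chk w M mP P = true) (hMw : M < 2 ^ w) (h2 : chk w C mC (P ^ 2) = true)
    (hCw : C < 2 ^ w) (hNM : N * M < 2 ^ w - 1) (hSM : S * M < 2 ^ w)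
    (hS : P % (2 ^ w - 1) = S) {c : ℝ} (hc : Admissible c) :
    c * (S : ℝ) ^ 2 ≤ 2 * N * C := by
  have hM : ∀ i, dig (2 ^ w) P i ≤ M := chk_spec w M mP P h1 hMw
  have hsum : ∑ i ∈ Finset.range N, dig (2 ^ w) P i < 2 ^ w - 1 := by
    refine lt_of_le_of_lt ?_ hNM
    calc ∑ i ∈ Finset.range N, dig (2 ^ w) P i ≤ ∑ i ∈ Finset.range N, M :=
          Finset.sum_le_sum (fun i _ => hM i)
      _ = N * M := by simp
  have hsum2 : ∑ i ∈ Finset.range N, dig (2 ^ w) P i = S := by
    rw [sum_dig hw hP hsum, hS]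
  have hcc : ∀ k, cc (dig (2 ^ w) P) k ≤ C := by
    intro k
    rw [← dig_sq (by omega) hP hM (by rw [hsum2]; exact hSM) k]
    exact chk_spec w C mC _ h2 hCw k
  have h := admissible_le (a := dig (2 ^ w) P) hN (fun i hi => dig_zero (by omega) hP hi) hM hcc hc
  have e : (∑ i ∈ Finset.range N, ((dig (2 ^ w) P i : ℕ) : ℝ)) = (S : ℝ) := by
    rw [← hsum2]; push_cast; rfl
  rw [e] at h
  exact h

end Pool.Agent.H67C1a
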